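import Mathlib

set_option autoImplicit false

/-!
# Convex-combination-of-slices Delta-points in maximum-norm sums
-/

namespace Pool.Agent.Results.MP_c457a4_an.CcsDeltaSum

variable (𝕜 : Type*) [RCLike 𝕜] {X : Type*} [NormedAddCommGroup X] [NormedSpace 𝕜 X]

/-- The slice `{z ∈ B_X : Re f(z) > 1 - α}` of the closed unit ball; it is used for functionals
`f` of norm one and `α > 0`. -/
def Slice (f : X →L[𝕜] 𝕜) (α : ℝ) : Set X :=
  {z | ‖z‖ ≤ 1 ∧ 1 - α < RCLike.re (f z)}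

/-- `C` is a convex combination of slices of the closed unit ball of `X`. -/
def IsCcs (C : Set X) : Prop :=
  ∃ (n : ℕ) (lam : Fin n → ℝ) (f : Fin n → (X →L[𝕜] 𝕜)) (α : Fin n → ℝ),
    (∀ i, 0 ≤ lam i) ∧ ∑ i, lam i = 1 ∧ (∀ i, ‖f i‖ = 1) ∧ (∀ i, 0 < α i) ∧
      C = {z | ∃ u : Fin n → X, (∀ i, u i ∈ Slice 𝕜 (f i) (α i)) ∧
        z = ∑ i, ((lam i : ℝ) : 𝕜) • u i}

/-- The point `x` is a ccs Delta-point: `‖x‖ = 1` and, for every convex combination of slices `C`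
of the unit ball that contains `x`, the supremum of `‖x - z‖` over `z ∈ C` is `2`. -/
def IsCcsDeltaPoint (x : X) : Prop :=
  ‖x‖ = 1 ∧ ∀ C : Set X, IsCcs 𝕜 C → x ∈ C → IsLUB ((fun z => ‖x - z‖) '' C) 2

/-- Transfer lemma: `j : X → Z` and `p : Z → X` with `p ∘ j = id`, such that replacing the
`X`-component of a point of the ball of `Z` by a point of the ball of `X` stays in the ball. -/
theorem transfer {Z : Type*} [NormedAddCommGroup Z] [NormedSpace 𝕜 Z]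
    (p : Z →L[𝕜] X) (j : X →L[𝕜] Z) (hpj : ∀ u, p (j u) = u)
    (hmax : ∀ (z : Z) (u : X), ‖z‖ ≤ 1 → ‖u‖ ≤ 1 → ‖z + j (u - p z)‖ ≤ 1)
    (hp : ∀ z : Z, ‖p z‖ ≤ ‖z‖) (ζ : Z) (hζ : ‖ζ‖ ≤ 1) (h : IsCcsDeltaPoint 𝕜 (p ζ)) :
    IsCcsDeltaPoint 𝕜 ζ := by
  refine ⟨le_antisymm hζ (by rw [← h.1]; exact hp ζ), ?_⟩
  rintro C ⟨n, lam, F, α, hlam, hsum, hF, hα, rfl⟩ ⟨w, hw, hζw⟩
  -- a norm one functional on `X`
  have hne : p ζ ≠ 0 := by
    intro h0
    have := h.1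
    rw [h0, norm_zero] at this
    norm_num at this
  obtain ⟨g0, hg0, -⟩ := exists_dual_vector 𝕜 (p ζ) (norm_ne_zero_iff.mpr hne)
  -- the functionals and the parameters of the slices of the ball of `X`
  have key : ∀ i, ∃ (f : X →L[𝕜] 𝕜) (β : ℝ), ‖f‖ = 1 ∧ 0 < β ∧
      ∀ u : X, ‖u‖ ≤ 1 → (1 - β < RCLike.re (f u) ↔
        1 - α i < RCLike.re (F i (w i + j (u - p (w i))))) := by
    intro i
    set fi : X →L[𝕜] 𝕜 := (F i).comp j with hfi
    have hexp : ∀ u, RCLike.re (F i (w i + j (u - p (w i)))) =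
        RCLike.re (F i (w i)) + RCLike.re (fi u) - RCLike.re (fi (p (w i))) := by
      intro u
      rw [map_add, map_sub, map_sub]
      simp [hfi]
      ring
    by_cases h0 : fi = 0
    · refine ⟨g0, 3, hg0, by norm_num, ?_⟩
      intro u hu
      have h1 : |RCLike.re (g0 u)| ≤ 1 := by
        calc |RCLike.re (g0 u)| ≤ ‖g0 u‖ := RCLike.abs_re_le_norm _
          _ ≤ ‖g0‖ * ‖u‖ := g0.le_opNorm u
          _ ≤ 1 := by rw [hg0]; linarith
      rw [abs_le] at h1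
      constructor
      · intro _
        rw [hexp, h0]
        simpa using (hw i).2
      · intro _
        linarith [h1.1]
    · have hpos : 0 < ‖fi‖ := norm_pos_iff.mpr h0
      set β : ℝ := 1 - (1 - α i - RCLike.re (F i (w i)) + RCLike.re (fi (p (w i)))) / ‖fi‖ with hβ
      set g : X →L[𝕜] 𝕜 := (((‖fi‖⁻¹ : ℝ) : 𝕜)) • fi with hg
      have hgre : ∀ u, RCLike.re (g u) = RCLike.re (fi u) / ‖fi‖ := by
        intro u
        rw [hg, _root_.smul_apply, smul_eq_mul, RCLike.re_ofReal_mul, div_eq_inv_mul]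
      have hgn : ‖g‖ = 1 := by
        rw [hg, norm_smul, RCLike.norm_ofReal, abs_of_pos (inv_pos.mpr hpos),
          inv_mul_cancel₀ hpos.ne']
      have hiff : ∀ u : X, (1 - β < RCLike.re (g u) ↔
        1 - α i < RCLike.re (F i (w i + j (u - p (w i))))) := by
        intro u
        rw [hexp, hgre, hβ]
        have : 1 - (1 - (1 - α i - RCLike.re (F i (w i)) + RCLike.re (fi (p (w i)))) / ‖fi‖) =
          (1 - α i - RCLike.re (F i (w i)) + RCLike.re (fi (p (w i)))) / ‖fi‖ := by ring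
        rw [this, div_lt_div_iff_of_pos_right hpos]
        constructor <;> intro h' <;> linarith
      refine ⟨g, β, hgn, ?_, fun u _ => hiff u⟩
      have h1 : 1 - β < RCLike.re (g (p (w i))) := by
        rw [hiff]
        simpa using (hw i).2
      have h2 : RCLike.re (g (p (w i))) ≤ 1 := by
        calc RCLike.re (g (p (w i))) ≤ ‖g (p (w i))‖ := RCLike.re_le_norm _
          _ ≤ ‖g‖ * ‖p (w i)‖ := g.le_opNorm _
          _ ≤ 1 := by rw [hgn, one_mul]; exact (hp _).trans (hw i).1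
      linarith
  choose f β hf hβ hiff using key
  have hmem : p ζ ∈ {z | ∃ u : Fin n → X, (∀ i, u i ∈ Slice 𝕜 (f i) (β i)) ∧
        z = ∑ i, ((lam i : ℝ) : 𝕜) • u i} := by
    refine ⟨fun i => p (w i), fun i => ⟨(hp _).trans (hw i).1, ?_⟩, ?_⟩
    · rw [hiff i _ ((hp _).trans (hw i).1)]
      simpa using (hw i).2
    · rw [hζw, map_sum]
      simp
  have hlub := h.2 _ ⟨n, lam, f, β, hlam, hsum, hf, hβ, rfl⟩ hmem
  constructor
  · rintro _ ⟨z, ⟨u, hu, rfl⟩, rfl⟩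
    have hz : ‖∑ i, ((lam i : ℝ) : 𝕜) • u i‖ ≤ 1 := by
      calc ‖∑ i, ((lam i : ℝ) : 𝕜) • u i‖ ≤ ∑ i, ‖((lam i : ℝ) : 𝕜) • u i‖ := norm_sum_le _ _
        _ ≤ ∑ i, lam i := by
            apply Finset.sum_le_sum
            intro i _
            rw [norm_smul, RCLike.norm_ofReal, abs_of_nonneg (hlam i)]
            have := (hu i).1
            have := hlam i
            nlinarith
        _ = 1 := hsum
    calc ‖ζ - ∑ i, ((lam i : ℝ) : 𝕜) • u i‖ ≤ ‖ζ‖ + ‖∑ i, ((lam i : ℝ) : 𝕜) • u i‖ :=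
          norm_sub_le _ _
      _ ≤ 2 := by linarith
  · intro b hb
    apply hlub.2
    rintro _ ⟨z, ⟨u, hu, rfl⟩, rfl⟩
    -- the corresponding point of `C`
    set v : Fin n → Z := fun i => w i + j (u i - p (w i)) with hv
    have hvC : ∀ i, v i ∈ Slice 𝕜 (F i) (α i) := by
      intro i
      refine ⟨hmax _ _ (hw i).1 (hu i).1, ?_⟩
      exact (hiff i (u i) (hu i).1).1 (hu i).2
    have hpv : ∀ i, p (v i) = u i := by
      intro i
      simp [hv, hpj]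
    have hb' := hb ⟨∑ i, ((lam i : ℝ) : 𝕜) • v i, ⟨v, hvC, rfl⟩, rfl⟩
    refine le_trans ?_ hb'
    change ‖p ζ - ∑ i, ((lam i : ℝ) : 𝕜) • u i‖ ≤ ‖ζ - ∑ i, ((lam i : ℝ) : 𝕜) • v i‖
    have : p ζ - ∑ i, ((lam i : ℝ) : 𝕜) • u i = p (ζ - ∑ i, ((lam i : ℝ) : 𝕜) • v i) := by
      rw [map_sub, map_sum]
      simp [hpv]
    rw [this]
    exact hp _

/-- **Theorem.** Let `X`, `Y` be Banach spaces over the real or complex numbers, and let `X × Y`
carry the maximum norm. If `x ∈ S_X` is a ccs Delta-point of `X` and `‖v‖ ≤ 1`, then `(x, v)` is a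
ccs Delta-point of `X × Y`; symmetrically for `(u, y)` with `‖u‖ ≤ 1` and `y ∈ S_Y` a ccs
Delta-point of `Y`. In particular, if `x` and `y` are ccs Delta-points, `a, b ∈ [0, 1]` and
`max a b = 1`, then `(a x, b y)` is a ccs Delta-point of `X × Y`. -/
theorem result (𝕜 : Type*) [RCLike 𝕜] (X Y : Type*) [NormedAddCommGroup X] [NormedSpace 𝕜 X]
    [CompleteSpace X] [NormedAddCommGroup Y] [NormedSpace 𝕜 Y] [CompleteSpace Y] :
    (∀ (x : X) (v : Y), IsCcsDeltaPoint 𝕜 x → ‖v‖ ≤ 1 → IsCcsDeltaPoint 𝕜 (x, v)) ∧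
    (∀ (u : X) (y : Y), ‖u‖ ≤ 1 → IsCcsDeltaPoint 𝕜 y → IsCcsDeltaPoint 𝕜 (u, y)) ∧
    (∀ (x : X) (y : Y) (a b : ℝ), IsCcsDeltaPoint 𝕜 x → IsCcsDeltaPoint 𝕜 y →
      a ∈ Set.Icc (0 : ℝ) 1 → b ∈ Set.Icc (0 : ℝ) 1 → max a b = 1 →
      IsCcsDeltaPoint 𝕜 (((a : ℝ) : 𝕜) • x, ((b : ℝ) : 𝕜) • y)) := by
  have h1 : ∀ (x : X) (v : Y), IsCcsDeltaPoint 𝕜 x → ‖v‖ ≤ 1 → IsCcsDeltaPoint 𝕜 (x, v) := by
    intro x v hx hv
    refine transfer 𝕜 (ContinuousLinearMap.fst 𝕜 X Y) (ContinuousLinearMap.inl 𝕜 X Y)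
      (fun u => rfl) ?_ (fun z => norm_fst_le z) (x, v) ?_ hx
    · rintro ⟨z1, z2⟩ u hz hu
      have h2 : ‖z2‖ ≤ 1 := (norm_snd_le (z1, z2)).trans hz
      simp only [ContinuousLinearMap.coe_fst', ContinuousLinearMap.inl_apply, Prod.mk_add_mk,
        add_sub_cancel, add_zero]
      exact norm_prod_le_iff.mpr ⟨hu, h2⟩
    · exact norm_prod_le_iff.mpr ⟨hx.1.le, hv⟩
  have h2 : ∀ (u : X) (y : Y), ‖u‖ ≤ 1 → IsCcsDeltaPoint 𝕜 y → IsCcsDeltaPoint 𝕜 (u, y) := by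
    intro u y hu hy
    refine transfer 𝕜 (ContinuousLinearMap.snd 𝕜 X Y) (ContinuousLinearMap.inr 𝕜 X Y)
      (fun u => rfl) ?_ (fun z => norm_snd_le z) (u, y) ?_ hy
    · rintro ⟨z1, z2⟩ v hz hv
      have h2 : ‖z1‖ ≤ 1 := (norm_fst_le (z1, z2)).trans hz
      simp only [ContinuousLinearMap.coe_snd', ContinuousLinearMap.inr_apply, Prod.mk_add_mk,
        add_sub_cancel, add_zero]
      exact norm_prod_le_iff.mpr ⟨h2, hv⟩
    · exact norm_prod_le_iff.mpr ⟨hu, hy.1.le⟩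
  refine ⟨h1, h2, ?_⟩
  intro x y a b hx hy ha hb hab
  have hna : ‖((a : ℝ) : 𝕜) • x‖ ≤ 1 := by
    rw [norm_smul, hx.1, mul_one, RCLike.norm_ofReal, abs_of_nonneg ha.1]
    exact ha.2
  have hnb : ‖((b : ℝ) : 𝕜) • y‖ ≤ 1 := by
    rw [norm_smul, hy.1, mul_one, RCLike.norm_ofReal, abs_of_nonneg hb.1]
    exact hb.2
  rcases max_choice a b with h | h
  · have : a = 1 := by rw [← hab, h]
    subst this
    have hx' : (((1 : ℝ) : 𝕜)) • x = x := by simp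
    rw [hx']
    exact h1 x _ hx hnb
  · have : b = 1 := by rw [← hab, h]
    subst this
    have hy' : (((1 : ℝ) : 𝕜)) • y = y := by simp
    rw [hy']
    exact h2 _ y hna hy

end Pool.Agent.Results.MP_c457a4_an.CcsDeltaSum
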